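import Mathlib
import Pool.Agent.H.MP_59b15d_al.symh.Coch

set_option autoImplicit false

/-!
Cocycles of the free group with values in the functions on a finite set.
-/

namespace Pool.MP_59b15d_al.SymH

open Finset

open Pool.MP_59b15d_al.Sym (Gg cW)

/-- the index set of the free generators -/
abbrev GI (ge N : ℕ) : Type := (Fin ge ⊕ Fin ge) ⊕ Fin N

/-- the cocycles `c : F → (S → K)` -/
def ZC (ge N : ℕ) (S K : Type*) [MulAction (FG ge N) S] [Field K] : Submodule K (FG ge N → S → K) where
  carrier := {c | ∀ u v x, c (u * v) x = c v x + c u (v • x)}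
  add_mem' := by
    intro c d hc hd u v x
    simp only [Pi.add_apply]
    rw [hc, hd]
    ring
  zero_mem' := by
    intro u v x
    simp
  smul_mem' := by
    intro a c hc u v x
    simp only [Pi.smul_apply, smul_eq_mul]
    rw [hc]
    ring

variable {ge N : ℕ} {S : Type*} [MulAction (FG ge N) S] {K : Type*} [Field K]

theorem mem_ZC {c : FG ge N → S → K} :
    c ∈ ZC ge N S K ↔ ∀ u v x, c (u * v) x = c v x + c u (v • x) := Iff.rfl

theorem zc_one {c : FG ge N → S → K} (hc : c ∈ ZC ge N S K) (x : S) : c 1 x = 0 := by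
  have h := hc 1 1 x
  rw [mul_one, one_smul] at h
  exact left_eq_add.mp h

theorem zc_inv {c : FG ge N → S → K} (hc : c ∈ ZC ge N S K) (u : FG ge N) (x : S) :
    c u⁻¹ x = -c u (u⁻¹ • x) := by
  have h := hc u u⁻¹ x
  rw [mul_inv_cancel, zc_one hc] at h
  exact eq_neg_of_add_eq_zero_left h.symm

theorem zc_pow {c : FG ge N → S → K} (hc : c ∈ ZC ge N S K) (u : FG ge N) (k : ℕ) (x : S) :
    c (u ^ k) x = ∑ r ∈ range k, c u (u ^ r • x) := by
  induction k with
  | zero => rw [pow_zero, zc_one hc, range_zero, sum_empty]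
  | succ k ih => rw [pow_succ', hc, ih, sum_range_succ]

/-- a cocycle is determined by its values at the generators -/
theorem zc_ext {c : FG ge N → S → K} (hc : c ∈ ZC ge N S K)
    (h : ∀ j x, c (FreeGroup.of j) x = 0) : c = 0 := by
  have key : ∀ u : FG ge N, ∀ x, c u x = 0 := by
    intro u
    induction u using FreeGroup.induction_on with
    | C1 => exact fun x => zc_one hc x
    | of j => exact fun x => h j x
    | inv_of j ih =>
      intro x
      rw [zc_inv hc]
      have := h j ((FreeGroup.of j)⁻¹ • x)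
      rw [this, neg_zero]
    | mul u v hu hv =>
      intro x
      rw [hc, hu, hv, add_zero]
  funext u x
  exact key u x

/-- the permutation of `S × K` given by a generator -/
def zcPerm (k : GI ge N → S → K) (j : GI ge N) : Equiv.Perm (S × K) where
  toFun p := (FreeGroup.of j • p.1, p.2 + k j p.1)
  invFun p := ((FreeGroup.of j)⁻¹ • p.1, p.2 - k j ((FreeGroup.of j)⁻¹ • p.1))
  left_inv := by
    rintro ⟨x, t⟩
    simp
  right_inv := by
    rintro ⟨x, t⟩
    simp

theorem zcPerm_apply (k : GI ge N → S → K) (j : GI ge N) (p : S × K) :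
    zcPerm k j p = (FreeGroup.of j • p.1, p.2 + k j p.1) := rfl

theorem zcPerm_inv_apply (k : GI ge N → S → K) (j : GI ge N) (p : S × K) :
    (zcPerm k j)⁻¹ p =
      ((FreeGroup.of j)⁻¹ • p.1, p.2 - k j ((FreeGroup.of j)⁻¹ • p.1)) := rfl

/-- the values at the generators are arbitrary -/
theorem zc_exists (k : GI ge N → S → K) :
    ∃ c ∈ ZC ge N S K, ∀ j x, c (FreeGroup.of j) x = k j x := by
  let Φ : FG ge N →* Equiv.Perm (S × K) := FreeGroup.lift (zcPerm k)
  have hof : ∀ j, Φ (FreeGroup.of j) = zcPerm k j := fun j => FreeGroup.lift_apply_of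
  have key : ∀ u : FG ge N, ∀ x t, Φ u (x, t) = (u • x, t + (Φ u (x, 0)).2) := by
    intro u
    induction u using FreeGroup.induction_on with
    | C1 =>
      intro x t
      rw [map_one]
      simp
    | of j =>
      intro x t
      rw [hof, zcPerm_apply, zcPerm_apply, zero_add]
    | inv_of j ih =>
      intro x t
      rw [map_inv, hof, zcPerm_inv_apply, zcPerm_inv_apply]
      simp only [Prod.mk.injEq, true_and]
      ring
    | mul u v hu hv =>
      intro x t
      rw [map_mul, Equiv.Perm.mul_apply, Equiv.Perm.mul_apply, hv x t, hu, hv x 0, hu, mul_smul]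
      simp only [Prod.mk.injEq, true_and]
      rw [hu (v • x) (0 + _)]
      simp only
      ring
  refine ⟨fun u x => (Φ u (x, 0)).2, ?_, ?_⟩
  · intro u v x
    change (Φ (u * v) (x, 0)).2 = (Φ v (x, 0)).2 + (Φ u (v • x, 0)).2
    rw [map_mul, Equiv.Perm.mul_apply, key v x 0, key u]
  · intro j x
    change (Φ (FreeGroup.of j) (x, 0)).2 = k j x
    rw [hof, zcPerm_apply, zero_add]

/-- evaluation at the generators -/
def zcEv (ge N : ℕ) (S K : Type*) [MulAction (FG ge N) S] [Field K] :
    ZC ge N S K →ₗ[K] (GI ge N → S → K) where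
  toFun c := fun j x => c.1 (FreeGroup.of j) x
  map_add' := by
    intro c d
    rfl
  map_smul' := by
    intro a c
    rfl

theorem zcEv_bij : Function.Bijective (zcEv ge N S K) := by
  constructor
  · rw [← LinearMap.ker_eq_bot, LinearMap.ker_eq_bot']
    intro c hc
    apply Subtype.ext
    exact zc_ext c.2 fun j x => congrFun (congrFun hc j) x
  · intro k
    obtain ⟨c, hc, h⟩ := zc_exists k
    refine ⟨⟨c, hc⟩, ?_⟩
    funext j x
    exact h j x

noncomputable def zcEquiv (ge N : ℕ) (S K : Type*) [MulAction (FG ge N) S] [Field K] :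
    ZC ge N S K ≃ₗ[K] (GI ge N → S → K) :=
  LinearEquiv.ofBijective (zcEv ge N S K) zcEv_bij

instance zc_fin [Finite S] : FiniteDimensional K (ZC ge N S K) :=
  Module.Finite.equiv (zcEquiv ge N S K).symm

theorem zc_finrank [Fintype S] :
    Module.finrank K (ZC ge N S K) = (2 * ge + N) * Fintype.card S := by
  rw [(zcEquiv ge N S K).finrank_eq, Module.finrank_pi_fintype]
  simp only [Module.finrank_fintype_fun_eq_card, sum_const, card_univ, Fintype.card_sum,
    Fintype.card_fin, smul_eq_mul]
  ring

/-- the total of a cocycle is additive -/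
theorem zc_total_mul [Fintype S] {c : FG ge N → S → K} (hc : c ∈ ZC ge N S K) (u v : FG ge N) :
    ∑ x, c (u * v) x = ∑ x, c u x + ∑ x, c v x := by
  simp only [hc u v, sum_add_distrib]
  rw [add_comm]
  congr 1
  exact Fintype.sum_equiv (MulAction.toPerm v) _ _ fun x => rfl

theorem zc_total_one [Fintype S] {c : FG ge N → S → K} (hc : c ∈ ZC ge N S K) :
    ∑ x, c 1 x = 0 := by
  simp only [zc_one hc, sum_const_zero]

theorem zc_total_inv [Fintype S] {c : FG ge N → S → K} (hc : c ∈ ZC ge N S K) (u : FG ge N) :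
    ∑ x, c u⁻¹ x = -∑ x, c u x := by
  have h := zc_total_mul hc u u⁻¹
  rw [mul_inv_cancel, zc_total_one hc] at h
  exact eq_neg_of_add_eq_zero_right h.symm

theorem zc_total_pow [Fintype S] {c : FG ge N → S → K} (hc : c ∈ ZC ge N S K) (u : FG ge N) (k : ℕ) :
    ∑ x, c (u ^ k) x = k * ∑ x, c u x := by
  induction k with
  | zero => rw [pow_zero, zc_total_one hc, Nat.cast_zero, zero_mul]
  | succ k ih =>
    rw [pow_succ, zc_total_mul hc, ih]
    push_cast
    ring

theorem zc_total_prod [Fintype S] {c : FG ge N → S → K} (hc : c ∈ ZC ge N S K) (l : List (FG ge N)) :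
    ∑ x, c l.prod x = (l.map fun u => ∑ x, c u x).sum := by
  induction l with
  | nil => rw [List.prod_nil, zc_total_one hc, List.map_nil, List.sum_nil]
  | cons u l ih => rw [List.prod_cons, zc_total_mul hc, ih, List.map_cons, List.sum_cons]

/-- the totals at all peripheral elements sum to zero -/
theorem zc_total_per [Fintype S] {c : FG ge N → S → K} (hc : c ∈ ZC ge N S K) :
    ∑ j : Fin (N + 1), ∑ x, c (per j) x = 0 := by
  rw [Fin.sum_univ_castSucc]
  simp only [per_castSucc, per_last]
  unfold xn cW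
  rw [zc_total_inv hc, zc_total_mul hc, zc_total_prod hc, zc_total_prod hc, List.map_ofFn,
    List.map_ofFn, List.sum_ofFn, List.sum_ofFn]
  simp only [Function.comp_apply]
  have h0 : ∀ i : Fin ge, ∑ x, c (FreeGroup.of (Sum.inl (Sum.inl i) : GI ge N) *
      FreeGroup.of (Sum.inl (Sum.inr i) : GI ge N) *
      (FreeGroup.of (Sum.inl (Sum.inl i) : GI ge N))⁻¹ *
      (FreeGroup.of (Sum.inl (Sum.inr i) : GI ge N))⁻¹) x = 0 := by
    intro i
    rw [zc_total_mul hc, zc_total_mul hc, zc_total_mul hc, zc_total_inv hc, zc_total_inv hc]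
    ring
  rw [sum_congr rfl fun i _ => h0 i, sum_const_zero, zero_add, add_neg_cancel]

end Pool.MP_59b15d_al.SymH
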